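import Mathlib
import Pool.Agent.Lib.helper13.TangB

set_option autoImplicit false

namespace Pool.Agent.Results.MP_e1005d_co.Counter

open Pool.Agent.Lib.H13Tang Set
open scoped Matroid

/-- Tangential `k`-blocks over the finite field `F`. -/
def IsTangentialBlock {α : Type} [Finite α] (F : Type) [Field F] [Fintype F] (k : ℕ)
    (M : Matroid α) : Prop :=
  Simple M ∧ Representable F M ∧ ¬ CritLE M (Fintype.card F) k ∧
    ∀ N : Matroid α, N.IsStrictMinor M → N.Loopless → CritLE N (Fintype.card F) k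

/-- `X` is a modular copoint of `M`. -/
def IsModularCopoint {α : Type} (M : Matroid α) (X : Set α) : Prop :=
  IsModularFlat M X ∧ rk M X + 1 = rk M M.E

/-- `M` has a chain `X 0 < X 1 < ... < X r` of modular flats, `r` the rank of `M`. -/
def HasModularFlag {α : Type} (M : Matroid α) : Prop :=
  ∃ X : ℕ → Set α, (∀ i ≤ rk M M.E, IsModularFlat M (X i)) ∧ ∀ i < rk M M.E, X i ⊂ X (i + 1)

theorem flag_rank {α : Type} [Finite α] {M : Matroid α} {X : ℕ → Set α}
    (h1 : ∀ i ≤ rk M M.E, IsModularFlat M (X i)) (h2 : ∀ i < rk M M.E, X i ⊂ X (i + 1)) :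
    ∀ i ≤ rk M M.E, rk M (X i) = i := by
  have step : ∀ i < rk M M.E, rk M (X i) < rk M (X (i + 1)) := fun i hi =>
    rk_lt_of_flat (h1 i hi.le).1 (h1 _ hi).1.subset_ground (h2 i hi)
  have key : ∀ j i, i + j ≤ rk M M.E → rk M (X i) + j ≤ rk M (X (i + j)) := fun j => by
    induction j with
    | zero => exact fun i _ => le_rfl
    | succ j ih =>
      intro i hi
      have := ih i (by omega)
      have := step (i + j) (by omega)
      rw [← add_assoc i]
      omega
  intro i hi
  have h3 := key i 0 (by omega)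
  have h4 := key (rk M M.E - i) i (by omega)
  have h5 := rk_mono M (h1 (i + (rk M M.E - i)) (by omega)).1.subset_ground
  rw [zero_add] at h3
  omega

theorem result : ∃ (F : Type) (_ : Field F) (_ : Fintype F) (k : ℕ) (α : Type) (_ : Finite α)
    (M : Matroid α), 1 ≤ k ∧ IsTangentialBlock F k M ∧ (∃ X, IsModularCopoint M X) ∧
      ¬ HasModularFlag M := by
  have h4 := heavy_pB.mono (show 4 ≤ 6 by norm_num)
  have hX := modular_avoid (P := Submodule.span (ZMod 7) {fun i => (pB i : ZMod 7)}) 7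
    (fun p hp => by
      obtain ⟨c, rfl⟩ := Submodule.mem_span_singleton.1 hp
      have : ((pB 7 : ℕ) : ZMod 7) = 0 := by decide
      simp [this]) (u := 0) (by decide)
  refine ⟨ZMod 7, inferInstance, inferInstance, 1, Sym2 (Fin 8), inferInstance,
    EM (Submodule.span (ZMod 7) {fun i => (pB i : ZMod 7)}), le_rfl,
    ⟨h4.simple, EM_rep.representable, EM_block (by rw [ZMod.card]; norm_num), fun N hN hl => ?_⟩,
    ⟨_, hX⟩, ?_⟩
  · obtain ⟨C, D, hC, hD, -, rfl⟩ := hN.isMinor.exists_eq_contract_delete_disjoint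
    refine ⟨1, le_rfl, tangent_pB.minor_pos h4 hC hD ?_ fun e he =>
      (Matroid.isNonloop_of_loopless he).indep⟩
    by_contra h0
    rw [Set.not_nonempty_iff_eq_empty, Set.union_empty_iff] at h0
    exact hN.ne (by simp [h0.1, h0.2])
  · rintro ⟨X, h1, h2⟩
    have hrk := flag_rank h1 h2
    have hp : ∀ w, (pB w : ZMod 7) = 0 ↔ w = 7 := by decide
    have h01 : s(0, 1) ∈ (EM (Submodule.span (ZMod 7) {fun i => (pB i : ZMod 7)})).E :=
      mem_EM.2 (by decide)
    have h02 : s(0, 2) ∈ (EM (Submodule.span (ZMod 7) {fun i => (pB i : ZMod 7)})).E :=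
      mem_EM.2 (by decide)
    have h2r := rk_mono (EM (Submodule.span (ZMod 7) {fun i => (pB i : ZMod 7)})) ((EM (Submodule.span (ZMod 7) {fun i => (pB i : ZMod 7)})
      ).closure_subset_ground {s(0, 1), s(0, 2)})
    rw [h4.simple.rk_line h01 h02 (by decide)] at h2r
    generalize hr : rk (EM (Submodule.span (ZMod 7) {fun i => (pB i : ZMod 7)}))
      (EM (Submodule.span (ZMod 7) {fun i => (pB i : ZMod 7)})).E = r at *
    obtain ⟨m, rfl⟩ : ∃ m, r = m + 2 := ⟨r - 2, by omega⟩
    have hH := h1 (m + 1) (by omega)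
    obtain ⟨l, hl0, w, -, a, hw, ha⟩ := heavy_pB.exists_vertex (U := univ) (by
      simp only [mem_univ, true_and]; decide) hH (Matroid.ground_isFlat _) hH.1.subset_ground
      (by rw [hrk _ (by omega), hr]) (fun i j => by simp [mem_EM])
    obtain rfl := (hp w).1 (coeff_eq_zero l (Submodule.mem_span_singleton_self _) (by decide) hw
      fun i _ hi => ha i trivial hi)
    have hHX : X (m + 1) ⊆ {e | e ∈ (EM (Submodule.span (ZMod 7)
        {fun i => (pB i : ZMod 7)})).E ∧ 7 ∉ e} := fun e he => by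
      refine ⟨hH.1.subset_ground he, fun h7 => ?_⟩
      obtain ⟨y, rfl⟩ := Sym2.mem_iff_exists.1 h7
      exact hw (((dv_eq_zero_iff l _ _).1 (hl0 _ he)).trans
        (ha y trivial (mem_EM.1 (hH.1.subset_ground he)).symm))
    obtain ⟨l', -, w', hw'U, a', hw', ha'⟩ := heavy_pB.exists_vertex (U := {i | i ≠ 7}) (by
      simp only [mem_ofPred_eq]; decide) (h1 m (by omega)) hX.1.1
      ((h2 m (by omega)).subset.trans hHX) (by have := hX.2; rw [hrk _ (by omega)]; omega)
      (fun i j => by simp [mem_EM, eq_comm])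
    exact hw'U ((hp w').1 (coeff_eq_zero l' (Submodule.mem_span_singleton_self _) (by decide) hw'
      fun i hi hi' => ha' i (fun e => hi ((hp i).2 e)) hi'))

end Pool.Agent.Results.MP_e1005d_co.Counter
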